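import Pool.Agent.L7h17.OC.Defs

/-!
# Project OS (MP_b7f146_ag): real plane octics with separated variables

A nonsingular real octic `A(x,z) + B(y,z)` has at most 16 ovals if it has no real point on the line
`z = 0`, and at most 18 in general. Idea: with `z = 1` the curve is `P x + Q y = 0`. Every compact piece
of it contains a point with `P' x ≤ 0` and `Q' y ≤ 0` (`S_KEY`); `{P' ≤ 0}` and `{Q' ≤ 0}` consist of at most
four intervals each (`S_CLS`), and in a box which is a product of two such intervals the curve is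
connected (`S_BOX`), so every box meets at most one piece (`S_AFF`).
-/

set_option autoImplicit false

open MvPolynomial

namespace Pool.Agent.L7h32.OS

open Pool.Agent.L7h17.OC

/-- the affine curve `P x + Q y = 0` -/
def Z (P Q : Polynomial ℝ) : Set (ℝ × ℝ) := {p | P.eval p.1 + Q.eval p.2 = 0}

/-- the affine curve has no singular point -/
def Reg (P Q : Polynomial ℝ) : Prop :=
  ∀ p ∈ Z P Q, ¬ (P.derivative.eval p.1 = 0 ∧ Q.derivative.eval p.2 = 0)

/-- `K` is a nonempty compact piece of the affine curve (its complement in the curve is closed) -/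
def Pc (P Q : Polynomial ℝ) (K : Set (ℝ × ℝ)) : Prop :=
  K.Nonempty ∧ IsCompact K ∧ K ⊆ Z P Q ∧ IsClosed (Z P Q \ K)

/-- the polynomial with the coefficients `a 0, ..., a 8` -/
noncomputable def pol (a : ℕ → ℝ) : Polynomial ℝ :=
  ∑ i ∈ Finset.range 9, Polynomial.C (a i) * Polynomial.X ^ i

/-- `F = A(x,z) + B(y,z)` -/
def Sep (F : MvPolynomial (Fin 3) ℝ) (a b : ℕ → ℝ) : Prop :=
  F = ∑ i ∈ Finset.range 9, (C (a i) * X 0 ^ i + C (b i) * X 1 ^ i) * X 2 ^ (8 - i)

/-- the sets `C i` are the pieces of a splitting, as in `SplitsInto` -/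
def IsSplit (k : ℕ) (F : MvPolynomial (Fin 3) ℝ) (C : Fin k → Set (Fin 3 → ℝ)) : Prop :=
  (∀ i, (C i).Nonempty) ∧ (∀ i j, i ≠ j → Disjoint (C i) (C j)) ∧
    (⋃ i, C i) = realCone F ∧
    (∀ i, ∀ v ∈ C i, ∀ c : ℝ, c ≠ 0 → c • v ∈ C i) ∧
    (∀ i, ∃ K : Set (Fin 3 → ℝ), IsClosed K ∧ C i = K ∩ {v | v ≠ 0})

/-- [LOC] 80 lines. Local continuation of a piece. Proof of the first half: `P' ≠ 0` on `[x₀ - δ', x₀ + δ']`
for some `δ' ≤ δ`, so `P` is strictly monotone there, `P (x₀ - δ') - P x₀` and `P (x₀ + δ') - P x₀` have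
different signs, and for `y` near `y₀` the function `x ↦ P x + Q y` still has different signs at
`x₀ ± δ'`: it has a zero `x` in between. The point `(x, y)` is in `Z P Q` and near `p`; since the set
`Z P Q \ K` is closed and does not contain `p`, it is in `K` if `δ'` and `ε` are small. The second half
is the first half for `Q`, `P` and the image of `K` under `Prod.swap`. -/
def S_LOC : Prop := ∀ (P Q : Polynomial ℝ) (K : Set (ℝ × ℝ)), Pc P Q K → ∀ p ∈ K,
  (P.derivative.eval p.1 ≠ 0 → ∀ δ : ℝ, 0 < δ → ∃ ε : ℝ, 0 < ε ∧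
    ∀ y : ℝ, |y - p.2| < ε → ∃ x : ℝ, |x - p.1| < δ ∧ (x, y) ∈ K) ∧
  (Q.derivative.eval p.2 ≠ 0 → ∀ δ : ℝ, 0 < δ → ∃ ε : ℝ, 0 < ε ∧
    ∀ x : ℝ, |x - p.1| < ε → ∃ y : ℝ, |y - p.2| < δ ∧ (x, y) ∈ K)

/-- [KEY] 120 lines, may assume `S_LOC`. Every compact piece contains a point with `P' ≤ 0` and `Q' ≤ 0`.
Proof: suppose not (*). Let `E = {(x, y) ∈ K : Q' y ≤ 0}` (compact). `E` is not empty: at the point of
`K` with the largest `x` one has `Q' y = 0` by the second half of [LOC]. Let `y₀` be the largest `y` on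
`E` and `x₀` the smallest `x` of the points `(x, y₀)` of `E` (compact sets). By (*) `P' x₀ > 0`.
(1) There is a point `(x, y) ∈ K` with `x < x₀`, `y ≥ y₀`: choose `δ` with `P' > 0` on
`[x₀ - δ, x₀ + δ]` and `ε` from the first half of [LOC]; for each `y ∈ (y₀, y₀ + ε)` there is a point
`(x, y) ∈ K` with `|x - x₀| < δ`, so `Q' y > 0` (otherwise it is in `E`, `y > y₀`). So `Q` is strictly
increasing on `[y₀, y₀ + ε)`, and for one such point `P x = - Q y < - Q y₀ = P x₀`, so `x < x₀`.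
(2) Let `G = {(x, y) ∈ K : y₀ ≤ y, x ≤ x₀}` (compact) and let `(u, v)` be a point of `G` with the
smallest `u`; by (1) `u < x₀`. `v ≠ y₀`, since otherwise `(u, y₀) ∈ E` (`Q' y₀ ≤ 0`) and `u < x₀`
contradict the choice of `x₀`. So `v > y₀`, `Q' v > 0` (otherwise `(u, v) ∈ E`). By the second half of
[LOC] there is a point `(x, y) ∈ K` with `x < u` and `|y - v| < v - y₀`: it is in `G`, a
contradiction. -/
def S_KEY : Prop := ∀ (P Q : Polynomial ℝ) (K : Set (ℝ × ℝ)), Reg P Q → Pc P Q K →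
  ∃ p ∈ K, P.derivative.eval p.1 ≤ 0 ∧ Q.derivative.eval p.2 ≤ 0

/-- [BOX] 90 lines. In a box with `P' ≤ 0`, `Q' ≤ 0` the curve is connected. Proof: `P` is strictly
decreasing on `I = uIcc x x'`, `Q` on `J = uIcc y y'` (a polynomial with derivative `≤ 0`, not identically zero:
antitone, and if `P s = P t`, `s < t`, then `P` is constant on `[s, t]`, so `P' = 0` at infinitely many
points). Take `A = {p ∈ I ×ˢ J : P p.1 + Q p.2 = 0}`: compact; `Prod.fst` is injective on `A`, and its image is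
all of `I` (for `t` in `I` the number `- P t` is between `- P x = Q y` and `- P x' = Q y'`, so it is
`Q s` for an `s ∈ J`). The restriction `A → ℝ` of `Prod.fst` is a closed injective map with image `I`, so
`A` is preconnected by `IsPreconnected.preimage_of_isClosedMap`. -/
def S_BOX : Prop := ∀ (P Q : Polynomial ℝ) (x x' y y' : ℝ), P.derivative ≠ 0 → Q.derivative ≠ 0 →
  (∀ t ∈ Set.uIcc x x', P.derivative.eval t ≤ 0) →
  (∀ t ∈ Set.uIcc y y', Q.derivative.eval t ≤ 0) → (x, y) ∈ Z P Q → (x', y') ∈ Z P Q →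
  ∃ A : Set (ℝ × ℝ), A ⊆ Z P Q ∧ IsPreconnected A ∧ (x, y) ∈ A ∧ (x', y') ∈ A

/-- [CLS] 100 lines. `{g ≤ 0}` consists of at most four intervals. Proof: let `Ch n x` (an inductive
predicate) mean that there are `x_0 < z_0 < x_1 < z_1 < ... < z_{n-1} < x_n = x` with `g x_i ≤ 0 < g z_i`.
If `Ch n x` then there is `ε₀ > 0` such that for `0 < ε < ε₀` the polynomial `g - ε` has `2 n` different
zeros smaller than `x` (induction: one more zero between `x_i` and `z_i` and one between `z_i` and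
`x_{i+1}`). So `2 n ≤ 7`, `n ≤ 3`. Put `c x` = the largest `n ≤ 3` with `Ch n x`
(`Nat.findGreatest`). If `x < y`, `g x ≤ 0`, `g y ≤ 0` and `g t > 0` for some `t` in between then
`Ch n x` implies `Ch (n + 1) y`, so `c x < c y`. -/
def S_CLS : Prop := ∀ g : Polynomial ℝ, g ≠ 0 → g.natDegree ≤ 7 → ∃ c : ℝ → Fin 4,
  ∀ x y : ℝ, g.eval x ≤ 0 → g.eval y ≤ 0 → c x = c y → ∀ t ∈ Set.uIcc x y, g.eval t ≤ 0

/-- [AFF] 60 lines, may assume `S_KEY`, `S_BOX`, `S_CLS`. Proof: choose points `p i ∈ K i` by [KEY], and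
the functions `c` of [CLS] for `P'` and `Q'`; if `n > 16` two different `i`, `j` have
the same `(c (p i).1, c' (p i).2)`; the set `A` of [BOX] is preconnected and contained in `Z P Q`, meets
`K i` and `K j`, but `Z P Q` is the disjoint union of the closed sets `K i` and `Z P Q \ K i`. -/
def S_AFF : Prop := ∀ (P Q : Polynomial ℝ) (n : ℕ) (K : Fin n → Set (ℝ × ℝ)), P.natDegree ≤ 8 →
  Q.natDegree ≤ 8 → P.derivative ≠ 0 → Q.derivative ≠ 0 → Reg P Q → (∀ i, Pc P Q (K i)) →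
  (∀ i j, i ≠ j → Disjoint (K i) (K j)) → n ≤ 16

/-- [NSG] 100 lines. What nonsingularity says. Proof: compute `aeval v (pderiv i F)` from `Sep`:
`∂₀F = ∑ i a_i x^(i-1) z^(8-i)`, `∂₁F = ∑ i b_i y^(i-1) z^(8-i)`,
`∂₂F = ∑ (8-i) (a_i x^i + b_i y^i) z^(7-i)`. (1) At the real point `(x, y, 1)`: `F = P x + Q y`,
`∂₀F = P' x`, `∂₁F = Q' y`, and `∂₂F = 8 F - x P' x - y Q' y`. (2) If `P' = 0` then `a i = 0` for
`i ≥ 1` and `(1, 0, 0)` is singular; the same for `Q` and `(0, 1, 0)`. (3) If `a 8 = b 8 = 0` there are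
complex `x, y`, not both zero, with `a_7 x^7 + b_7 y^7 = 0` (`x^7 = - b_7`, `y^7 = a_7`, or `(1, 0)` if
`a_7 = b_7 = 0`), and `(x, y, 0)` is singular. -/
def S_NSG : Prop := ∀ (F : MvPolynomial (Fin 3) ℝ) (a b : ℕ → ℝ), Sep F a b → Nonsing F →
  Reg (pol a) (pol b) ∧ (pol a).derivative ≠ 0 ∧ (pol b).derivative ≠ 0 ∧ (a 8 ≠ 0 ∨ b 8 ≠ 0)

/-- [CPT] 100 lines. The pieces without points at infinity are compact. Proof: `K = {p | ![p.1, p.2, 1] ∈ C i}`.
Nonempty: scale a point of `C i` by `1 / v 2`. `K ⊆ Z`: the value of `F` at `(x, y, 1)` is `P x + Q y`.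
Closed: `C i = K' ∩ {v ≠ 0}`, `K'` closed, `![x, y, 1] ≠ 0`. Bounded: `C i ∩ sphere 0 1` is compact and
`|v 2|` is positive on it, so `≥ d > 0`; scaling `(x, y, 1)` to norm 1 gives norm `≤ 1 / d`. `Z \ K` is the
union of the finitely many closed sets `{p | ![p.1, p.2, 1] ∈ C j}`, `j ≠ i`. -/
def S_CPT : Prop := ∀ (F : MvPolynomial (Fin 3) ℝ) (a b : ℕ → ℝ) (k : ℕ)
  (C : Fin k → Set (Fin 3 → ℝ)), Sep F a b → IsSplit k F C → ∀ i, (∀ v ∈ C i, v 2 ≠ 0) →
  Pc (pol a) (pol b) {p : ℝ × ℝ | ![p.1, p.2, 1] ∈ C i}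

/-- [INF] 70 lines. At most two pieces have points at infinity. Proof: on `v 2 = 0` the value of `F` is
`a 8 * v 0 ^ 8 + b 8 * v 1 ^ 8`. If `a 8 = 0` then `v 1 = 0` and all these points are proportional, so
they are in the same `C i`; the same if `b 8 = 0`. Otherwise `v 0 ≠ 0` and `t = v 1 / v 0` satisfies
`t ^ 8 = - a 8 / b 8`; two such `t` are equal or opposite, so among three pieces two have the same `t`,
proportional points, so they are equal. -/
def S_INF : Prop := ∀ (F : MvPolynomial (Fin 3) ℝ) (a b : ℕ → ℝ) (k : ℕ)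
  (C : Fin k → Set (Fin 3 → ℝ)), Sep F a b → (a 8 ≠ 0 ∨ b 8 ≠ 0) → IsSplit k F C →
  ∀ J : Finset (Fin k), (∀ i ∈ J, ∃ v ∈ C i, v 2 = 0) → J.card ≤ 2

/-- the coefficients of the Chebyshev polynomial `T₈`, with the constant term `1 + c` -/
noncomputable def cheb (c : ℝ) : ℕ → ℝ
  | 0 => 1 + c
  | 2 => -32
  | 4 => 160
  | 6 => -256
  | 8 => 128
  | _ => 0

/-- [SHN] 100 lines. The octic `T₈ x + T₈ y + 1/2` is nonsingular. Proof: homogeneous: clear. Complex points
with `z = 0`: `∂₀F = 1024 x^7`, `∂₁F = 1024 y^7` vanish only for `x = y = 0`. Points with `z ≠ 0`: by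
homogeneity `z = 1`; `T₈' x = 0` implies `T₈ x ^ 2 = 1` because
`T₈ ^ 2 - 1 = (x ^ 2 - 1) (T₈' / 8) ^ 2` (`ring`), so `T₈ x + T₈ y` is `-2`, `0` or `2`, not `-1/2`. -/
def S_SHN : Prop := ∀ F : MvPolynomial (Fin 3) ℝ, Sep F (cheb (1 / 2)) (cheb 0) →
  F.IsHomogeneous 8 ∧ Nonsing F ∧ ∀ v : Fin 3 → ℝ, v ≠ 0 → v 2 = 0 → eval v F ≠ 0

/-- [SHS] 120 lines. It splits into 16 pieces. Proof: no real point has `v 2 = 0` (the value is
`128 (v 0 ^ 8 + v 1 ^ 8)`), and none has `x = v 0 / v 2` or `y = v 1 / v 2` in `{0, 1/√2, -1/√2}`, where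
`T₈ = 1` and `T₈ y ≥ -1` (`T₈ + 1 = 2 T₄ ^ 2`, `T₄ = 8 x ^ 4 - 8 x ^ 2 + 1`). So the curve is the union of
16 relatively closed pieces, given by the position of `x` and of `y` relative to these three numbers
(for `m, n ∈ Fin 4`: `x` between the thresholds number `m` and `m + 1`, the same for `y`, `n`; closed
conditions of the type `s * v 2 ^ 2 ≤ v 0 * v 2`). Nonempty: in the interval number `m` there is a zero
`x₀` of `T₄` (`x₀ ^ 2 = (2 ± √2) / 4`), `T₈ x₀ = -1`; take `y` in the interval number `n` with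
`T₈ y = 1/2` (intermediate values between a zero of `T₄` and a threshold). -/
def S_SHS : Prop := ∀ F : MvPolynomial (Fin 3) ℝ, Sep F (cheb (1 / 2)) (cheb 0) → SplitsInto 16 F

end Pool.Agent.L7h32.OS
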