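import Pool.Agent.L7h32.OS.Stm2

set_option autoImplicit false

namespace Pool.Agent.L7h32.OS

open Pool.Agent.L7h17.OC

theorem core (hK : S_KEY) (hB : S_BOX) (P Q : Polynomial ℝ) (n : ℕ) (K : Fin n → Set (ℝ × ℝ))
    (hP' : P.derivative ≠ 0) (hQ' : Q.derivative ≠ 0) (hR : Reg P Q) (hPc : ∀ i, Pc P Q (K i))
    (hd : ∀ i j, i ≠ j → Disjoint (K i) (K j)) {α β : Type} [Fintype α] [Fintype β]
    (c : ℝ → α) (c' : ℝ → β)
    (hc : ∀ x y : ℝ, P.derivative.eval x ≤ 0 → P.derivative.eval y ≤ 0 → c x = c y →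
      ∀ t ∈ Set.uIcc x y, P.derivative.eval t ≤ 0)
    (hc' : ∀ x y : ℝ, Q.derivative.eval x ≤ 0 → Q.derivative.eval y ≤ 0 → c' x = c' y →
      ∀ t ∈ Set.uIcc x y, Q.derivative.eval t ≤ 0) : n ≤ Fintype.card α * Fintype.card β := by
  choose p hpK hp1 hp2 using fun i => hK P Q (K i) hR (hPc i)
  by_contra hn
  push Not at hn
  obtain ⟨i, j, hij, h⟩ := Fintype.exists_ne_map_eq_of_card_lt
    (fun i : Fin n => (c (p i).1, c' (p i).2)) (by
      rw [Fintype.card_prod, Fintype.card_fin]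
      exact hn)
  have h1 : c (p i).1 = c (p j).1 := congrArg Prod.fst h
  have h2 : c' (p i).2 = c' (p j).2 := congrArg Prod.snd h
  obtain ⟨A, hAZ, hApre, hiA, hjA⟩ := hB P Q (p i).1 (p j).1 (p i).2 (p j).2 hP' hQ'
    (hc _ _ (hp1 i) (hp1 j) h1) (hc' _ _ (hp2 i) (hp2 j) h2)
    ((hPc i).2.2.1 (hpK i)) ((hPc j).2.2.1 (hpK j))
  rw [isPreconnected_closed_iff] at hApre
  have hjn : p j ∉ K i := fun hji => Set.disjoint_left.1 (hd i j hij) hji (hpK j)
  obtain ⟨z, -, hz1, hz2⟩ := hApre (K i) (Z P Q \ K i) (hPc i).2.1.isClosed (hPc i).2.2.2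
    (fun z hz => by
      by_cases hzK : z ∈ K i
      · exact Or.inl hzK
      · exact Or.inr ⟨hAZ hz, hzK⟩)
    ⟨p i, hiA, hpK i⟩ ⟨p j, hjA, hAZ hjA, hjn⟩
  exact hz2.2 hz1

theorem refl_eval (P : Polynomial ℝ) (x : ℝ) : (P.comp (-Polynomial.X)).eval x = P.eval (-x) := by
  rw [Polynomial.eval_comp, Polynomial.eval_neg, Polynomial.eval_X]

theorem refl_der (P : Polynomial ℝ) (x : ℝ) :
    (P.comp (-Polynomial.X)).derivative.eval x = -P.derivative.eval (-x) := by
  rw [Polynomial.derivative_comp, Polynomial.eval_mul, Polynomial.eval_comp,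
    Polynomial.derivative_neg, Polynomial.derivative_X, Polynomial.eval_neg, Polynomial.eval_neg,
    Polynomial.eval_X, Polynomial.eval_one]
  ring

theorem s_AF3 (hK : S_KEY) (hB : S_BOX) (hC : S_CLS) (h3 : S_CL3) : S_AF3 := by
  intro P Q n K hP hQ hP' hQ' hR hPc hd
  obtain ⟨s, c, hs, hc⟩ := h3 P.derivative hP'
    ((Polynomial.natDegree_derivative_le P).trans (by omega))
  obtain ⟨c', hc'⟩ := hC Q.derivative hQ'
    ((Polynomial.natDegree_derivative_le Q).trans (by omega))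
  rcases hs with rfl | rfl
  · have h := core hK hB P Q n K hP' hQ' hR hPc hd c c' (by simpa only [one_mul] using hc) hc'
    rw [Fintype.card_fin, Fintype.card_fin] at h
    omega
  · have hρ : Continuous fun p : ℝ × ℝ => (-p.1, p.2) := by fun_prop
    have hZ : ∀ p : ℝ × ℝ, p ∈ Z (P.comp (-Polynomial.X)) Q ↔ (-p.1, p.2) ∈ Z P Q := by
      intro p
      show (P.comp (-Polynomial.X)).eval p.1 + Q.eval p.2 = 0 ↔ P.eval (-p.1) + Q.eval p.2 = 0
      rw [refl_eval]
    have h := core hK hB (P.comp (-Polynomial.X)) Q n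
      (fun i => (fun p : ℝ × ℝ => (-p.1, p.2)) ⁻¹' K i) ?_ hQ' ?_ ?_ ?_ (fun x => c (-x)) c' ?_ hc'
    · rw [Fintype.card_fin, Fintype.card_fin] at h
      omega
    · intro h0
      refine hP' (Polynomial.funext fun x => ?_)
      have h1 := refl_der P (-x)
      rw [h0, Polynomial.eval_zero, neg_neg] at h1
      rw [Polynomial.eval_zero]
      linarith
    · intro p hp hp'
      refine hR (-p.1, p.2) ((hZ p).1 hp) ⟨?_, hp'.2⟩
      have h1 := refl_der P p.1
      rw [hp'.1] at h1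
      show P.derivative.eval (-p.1) = 0
      linarith
    · intro i
      obtain ⟨h1, h2, h3, h4⟩ := hPc i
      refine ⟨?_, ?_, ?_, ?_⟩
      · obtain ⟨q, hq⟩ := h1
        refine ⟨(-q.1, q.2), ?_⟩
        show (-(-q.1), q.2) ∈ K i
        rw [neg_neg]
        exact hq
      · have h5 : (fun p : ℝ × ℝ => (-p.1, p.2)) ⁻¹' K i =
            (fun p : ℝ × ℝ => (-p.1, p.2)) '' K i := by
          ext p
          constructor
          · intro hp
            exact ⟨(-p.1, p.2), hp, by simp⟩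
          · rintro ⟨q, hq, rfl⟩
            show (-(-q.1), q.2) ∈ K i
            rw [neg_neg]
            exact hq
        show IsCompact ((fun p : ℝ × ℝ => (-p.1, p.2)) ⁻¹' K i)
        rw [h5]
        exact h2.image hρ
      · intro p hp
        exact (hZ p).2 (h3 hp)
      · have h5 : Z (P.comp (-Polynomial.X)) Q \ (fun p : ℝ × ℝ => (-p.1, p.2)) ⁻¹' K i =
            (fun p : ℝ × ℝ => (-p.1, p.2)) ⁻¹' (Z P Q \ K i) := by
          ext p
          constructor
          · rintro ⟨hp1, hp2⟩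
            exact ⟨(hZ p).1 hp1, hp2⟩
          · rintro ⟨hp1, hp2⟩
            exact ⟨(hZ p).2 hp1, hp2⟩
        show IsClosed (Z (P.comp (-Polynomial.X)) Q \ (fun p : ℝ × ℝ => (-p.1, p.2)) ⁻¹' K i)
        rw [h5]
        exact h4.preimage hρ
    · intro i j hij
      exact (hd i j hij).preimage _
    · intro x y hx hy hxy t ht
      rw [refl_der] at hx hy ⊢
      have h1 := hc (-x) (-y) (by linarith) (by linarith) hxy (-t) (by
        rw [Set.mem_uIcc] at ht ⊢
        rcases ht with ⟨h, h'⟩ | ⟨h, h'⟩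
        · exact Or.inr ⟨by linarith, by linarith⟩
        · exact Or.inl ⟨by linarith, by linarith⟩)
      linarith

end Pool.Agent.L7h32.OS
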