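import Pool.Agent.L7h32.OS.Stm

set_option autoImplicit false

namespace Pool.Agent.L7h32.OS

open Pool.Agent.L7h17.OC

theorem s_AFF (hK : S_KEY) (hB : S_BOX) (hC : S_CLS) : S_AFF := by
  intro P Q n K hP hQ hP' hQ' hR hPc hd
  choose p hpK hp1 hp2 using fun i => hK P Q (K i) hR (hPc i)
  obtain ⟨c, hc⟩ := hC P.derivative hP'
    ((Polynomial.natDegree_derivative_le P).trans (by omega))
  obtain ⟨c', hc'⟩ := hC Q.derivative hQ'
    ((Polynomial.natDegree_derivative_le Q).trans (by omega))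
  by_contra hn
  push Not at hn
  obtain ⟨i, j, hij, h⟩ := Fintype.exists_ne_map_eq_of_card_lt
    (fun i : Fin n => (c (p i).1, c' (p i).2)) (by
      rw [Fintype.card_prod, Fintype.card_fin, Fintype.card_fin]
      exact hn)
  have h1 : c (p i).1 = c (p j).1 := congrArg Prod.fst h
  have h2 : c' (p i).2 = c' (p j).2 := congrArg Prod.snd h
  obtain ⟨A, hAZ, hApre, hiA, hjA⟩ := hB P Q (p i).1 (p j).1 (p i).2 (p j).2 hP' hQ'
    (hc _ _ (hp1 i) (hp1 j) h1) (hc' _ _ (hp2 i) (hp2 j) h2)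
    ((hPc i).2.2.1 (hpK i)) ((hPc j).2.2.1 (hpK j))
  rw [isPreconnected_closed_iff] at hApre
  have hjn : p j ∉ K i := fun hji => Set.disjoint_left.1 (hd i j hij) hji (hpK j)
  obtain ⟨z, -, hz1, hz2⟩ := hApre (K i) (Z P Q \ K i) (hPc i).2.1.isClosed (hPc i).2.2.2
    (fun z hz => by
      by_cases hzK : z ∈ K i
      · exact Or.inl hzK
      · exact Or.inr ⟨hAZ hz, hzK⟩)
    ⟨p i, hiA, hpK i⟩ ⟨p j, hjA, hAZ hjA, hjn⟩
  exact hz2.2 hz1

end Pool.Agent.L7h32.OS
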