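import Pool.Agent.L7h32.OS.Aff

set_option autoImplicit false

open MvPolynomial

namespace Pool.Agent.L7h32.OS

open Pool.Agent.L7h17.OC

/-- assembly: at most 16 pieces without points at infinity, at most two others -/
theorem fin (hN : S_NSG) (hA : S_AFF) (hCp : S_CPT) (hI : S_INF) (F : MvPolynomial (Fin 3) ℝ)
    (a b : ℕ → ℝ) (hS : Sep F a b) (hF : Nonsing F) (k : ℕ) (hk : SplitsInto k F) :
    k ≤ 18 ∧ ((∀ v : Fin 3 → ℝ, v ≠ 0 → v 2 = 0 → eval v F ≠ 0) → k ≤ 16) := by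
  classical
  obtain ⟨C, hC⟩ := hk
  have hC' : IsSplit k F C := hC
  obtain ⟨hR, hP', hQ', h8⟩ := hN F a b hS hF
  obtain ⟨J, hJ⟩ : ∃ J : Finset (Fin k), ∀ i, i ∈ J ↔ ∃ v ∈ C i, v 2 = 0 :=
    ⟨Finset.univ.filter fun i => ∃ v ∈ C i, v 2 = 0, fun i => by simp⟩
  have hJ2 : J.card ≤ 2 := hI F a b k C hS h8 hC' J fun i hi => (hJ i).1 hi
  have hdeg : ∀ c : ℕ → ℝ, (pol c).natDegree ≤ 8 := by
    intro c
    unfold pol
    refine Polynomial.natDegree_sum_le_of_forall_le _ _ fun i hi => ?_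
    refine (Polynomial.natDegree_C_mul_X_pow_le _ _).trans ?_
    have := Finset.mem_range.1 hi
    omega
  have hcompl : (Jᶜ).card ≤ 16 := by
    obtain ⟨e⟩ : Nonempty (Fin (Jᶜ).card ≃ (Jᶜ : Finset (Fin k))) := ⟨(Jᶜ).equivFin.symm⟩
    refine hA (pol a) (pol b) (Jᶜ).card
      (fun i => {p : ℝ × ℝ | ![p.1, p.2, 1] ∈ C (e i)}) (hdeg a) (hdeg b) hP' hQ' hR ?_ ?_
    · intro i
      refine hCp F a b k C hS hC' (e i) fun v hv h0 => ?_
      have h1 := (e i).2
      rw [Finset.mem_compl, hJ] at h1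
      exact h1 ⟨v, hv, h0⟩
    · intro i j hij
      rw [Set.disjoint_left]
      intro p hp hq
      refine Set.disjoint_left.1 (hC.2.1 (e i) (e j) fun h => hij ?_) hp hq
      exact e.injective (Subtype.ext h)
  have hcard : J.card + (Jᶜ).card = k := by
    rw [Finset.card_add_card_compl, Fintype.card_fin]
  refine ⟨by omega, fun h0 => ?_⟩
  have hJ0 : J = ∅ := by
    refine Finset.eq_empty_of_forall_notMem fun i hi => ?_
    obtain ⟨v, hv, hv2⟩ := (hJ i).1 hi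
    have hvr : v ∈ realCone F := by
      rw [← hC.2.2.1]
      exact Set.mem_iUnion.2 ⟨i, hv⟩
    exact h0 v hvr.1 hv2 hvr.2
  have hJc : J.card = 0 := by
    rw [hJ0, Finset.card_empty]
  omega

end Pool.Agent.L7h32.OS
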