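import Pool.Agent.L7h32.OS.Af3

set_option autoImplicit false

open MvPolynomial

namespace Pool.Agent.L7h32.OS

open Pool.Agent.L7h17.OC

theorem Z_swap (P Q : Polynomial ℝ) (p : ℝ × ℝ) : p ∈ Z Q P ↔ p.swap ∈ Z P Q := by
  show Q.eval p.1 + P.eval p.2 = 0 ↔ P.eval p.2 + Q.eval p.1 = 0
  rw [add_comm]

theorem Reg_swap {P Q : Polynomial ℝ} (h : Reg P Q) : Reg Q P :=
  fun p hp hp' => h p.swap ((Z_swap P Q p).1 hp) ⟨hp'.2, hp'.1⟩

theorem Pc_swap {P Q : Polynomial ℝ} {K : Set (ℝ × ℝ)} (h : Pc P Q K) :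
    Pc Q P (Prod.swap ⁻¹' K) := by
  obtain ⟨h1, h2, h3, h4⟩ := h
  have hs : Prod.swap ⁻¹' K = Prod.swap '' K := by
    ext p
    constructor
    · intro hp
      exact ⟨p.swap, hp, Prod.swap_swap p⟩
    · rintro ⟨q, hq, rfl⟩
      show q.swap.swap ∈ K
      rw [Prod.swap_swap]
      exact hq
  refine ⟨?_, ?_, ?_, ?_⟩
  · obtain ⟨q, hq⟩ := h1
    refine ⟨q.swap, ?_⟩
    show q.swap.swap ∈ K
    rw [Prod.swap_swap]
    exact hq
  · rw [hs]
    exact h2.image continuous_swap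
  · intro p hp
    exact (Z_swap P Q p).2 (h3 hp)
  · have h5 : Z Q P \ Prod.swap ⁻¹' K = Prod.swap ⁻¹' (Z P Q \ K) := by
      ext p
      constructor
      · rintro ⟨hp1, hp2⟩
        exact ⟨(Z_swap P Q p).1 hp1, hp2⟩
      · rintro ⟨hp1, hp2⟩
        exact ⟨(Z_swap P Q p).2 hp1, hp2⟩
    rw [h5]
    exact h4.preimage continuous_swap

theorem pol_deg (c : ℕ → ℝ) : (pol c).natDegree ≤ 8 := by
  unfold pol
  refine Polynomial.natDegree_sum_le_of_forall_le _ _ fun i hi => ?_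
  refine (Polynomial.natDegree_C_mul_X_pow_le _ _).trans ?_
  have := Finset.mem_range.1 hi
  omega

theorem pol_deg7 (c : ℕ → ℝ) (h : c 8 = 0) : (pol c).natDegree ≤ 7 := by
  unfold pol
  rw [Finset.sum_range_succ, h, map_zero, zero_mul, add_zero]
  refine Polynomial.natDegree_sum_le_of_forall_le _ _ fun i hi => ?_
  refine (Polynomial.natDegree_C_mul_X_pow_le _ _).trans ?_
  have := Finset.mem_range.1 hi
  omega

/-- the degenerate case: at most 13 pieces -/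
theorem fin2 (hN : S_NSG) (hA : S_AF3) (hCp : S_CPT) (hI : S_IN1) (F : MvPolynomial (Fin 3) ℝ)
    (a b : ℕ → ℝ) (hS : Sep F a b) (hF : Nonsing F) (h0 : a 8 = 0 ∨ b 8 = 0) (k : ℕ)
    (hk : SplitsInto k F) : k ≤ 13 := by
  classical
  obtain ⟨C, hC⟩ := hk
  have hC' : IsSplit k F C := hC
  obtain ⟨hR, hP', hQ', h8⟩ := hN F a b hS hF
  obtain ⟨J, hJ⟩ : ∃ J : Finset (Fin k), ∀ i, i ∈ J ↔ ∃ v ∈ C i, v 2 = 0 :=
    ⟨Finset.univ.filter fun i => ∃ v ∈ C i, v 2 = 0, fun i => by simp⟩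
  have hJ2 : J.card ≤ 1 := hI F a b k C hS h8 h0 hC' J fun i hi => (hJ i).1 hi
  have hcompl : (Jᶜ).card ≤ 12 := by
    obtain ⟨e⟩ : Nonempty (Fin (Jᶜ).card ≃ (Jᶜ : Finset (Fin k))) := ⟨(Jᶜ).equivFin.symm⟩
    have hPc : ∀ i, Pc (pol a) (pol b) {p : ℝ × ℝ | ![p.1, p.2, 1] ∈ C (e i)} := by
      intro i
      refine hCp F a b k C hS hC' (e i) fun v hv h0 => ?_
      have h1 := (e i).2
      rw [Finset.mem_compl, hJ] at h1
      exact h1 ⟨v, hv, h0⟩
    have hd : ∀ i j, i ≠ j → Disjoint {p : ℝ × ℝ | ![p.1, p.2, 1] ∈ C (e i)}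
        {p : ℝ × ℝ | ![p.1, p.2, 1] ∈ C (e j)} := by
      intro i j hij
      rw [Set.disjoint_left]
      intro p hp hq
      refine Set.disjoint_left.1 (hC.2.1 (e i) (e j) fun h => hij ?_) hp hq
      exact e.injective (Subtype.ext h)
    rcases h0 with h0 | h0
    · exact hA (pol a) (pol b) (Jᶜ).card _ (pol_deg7 a h0) (pol_deg b) hP' hQ' hR hPc hd
    · exact hA (pol b) (pol a) (Jᶜ).card _ (pol_deg7 b h0) (pol_deg a) hQ' hP' (Reg_swap hR)
        (fun i => Pc_swap (hPc i)) fun i j hij => (hd i j hij).preimage _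
  have hcard : J.card + (Jᶜ).card = k := by
    rw [Finset.card_add_card_compl, Fintype.card_fin]
  omega

end Pool.Agent.L7h32.OS
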