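import Pool.Agent.L7h32.OS.Stm

/-!
# Project OS, second stage: the degenerate case (degree of `P` or `Q` less than eight)
-/

set_option autoImplicit false

open MvPolynomial

namespace Pool.Agent.L7h32.OS

open Pool.Agent.L7h17.OC

/-- [CL3] 60 lines. A polynomial `g` of degree at most six: `{g ≤ 0}` or `{-g ≤ 0}` consists of at most three
intervals. Proof: if the degree is odd take `s = 1`; if it is even take the sign `s` of the leading
coefficient, so that `s g` is positive near `± ∞`. With the chains `Ch n x` of [CLS] for `s g`: `s g - ε` has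
`2 n` zeros to the left of `x`; for even degree one more to the right of `x` and one more to the left of
the first point of the chain (take them first: `s g - ε > 0` far away), so `2 n + 2 ≤ 6`; for odd degree
`2 n ≤ 5`. So `n ≤ 2`. -/
def S_CL3 : Prop := ∀ g : Polynomial ℝ, g ≠ 0 → g.natDegree ≤ 6 → ∃ (s : ℝ) (c : ℝ → Fin 3),
  (s = 1 ∨ s = -1) ∧ ∀ x y : ℝ, s * g.eval x ≤ 0 → s * g.eval y ≤ 0 → c x = c y →
    ∀ t ∈ Set.uIcc x y, s * g.eval t ≤ 0

/-- [IN1] 40 lines. If `a 8 = 0` or `b 8 = 0` (not both) at most one piece has points at infinity. Proof: on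
`v 2 = 0` the value of `F` is `a 8 * v 0 ^ 8 + b 8 * v 1 ^ 8`, so all these points are proportional. -/
def S_IN1 : Prop := ∀ (F : MvPolynomial (Fin 3) ℝ) (a b : ℕ → ℝ) (k : ℕ)
  (C : Fin k → Set (Fin 3 → ℝ)), Sep F a b → (a 8 ≠ 0 ∨ b 8 ≠ 0) → (a 8 = 0 ∨ b 8 = 0) →
  IsSplit k F C → ∀ J : Finset (Fin k), (∀ i ∈ J, ∃ v ∈ C i, v 2 = 0) → J.card ≤ 1

/-- [AF3] 80 lines, may assume `S_KEY`, `S_BOX`, `S_CLS`, `S_CL3`: as [AFF], after the reflection `x ↦ -x` if
`s = -1`. -/
def S_AF3 : Prop := ∀ (P Q : Polynomial ℝ) (n : ℕ) (K : Fin n → Set (ℝ × ℝ)), P.natDegree ≤ 7 →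
  Q.natDegree ≤ 8 → P.derivative ≠ 0 → Q.derivative ≠ 0 → Reg P Q → (∀ i, Pc P Q (K i)) →
  (∀ i j, i ≠ j → Disjoint (K i) (K j)) → n ≤ 12

end Pool.Agent.L7h32.OS
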